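import Mathlib

/-!
# Notes on MP_cd1519_an and MP_49a1ce_an (nothing is proved here, nothing is handed in)

Q1 of MP_cd1519_an (frozen statements `S06179`, `S06180`): are two topological systems with the same
invariant-measure systems both Möbius disjoint or both not? The following sketch says that the answer is NO. It was
found too late to be written in Lean; it may be of use to somebody who continues. `μ` is the Möbius function.

(1) BLOCKS. Let `(X, T)` be Möbius disjoint, let `b_k` be times with `b_(k+1) - b_k → ∞` and `x_k` points of `X`, and put
`z_n = T^(n - b_k) x_k` for `b_k ≤ n < b_(k+1)`. Let `X'` be the following set of sequences in `X`, with the shift: the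
orbits of `T`; the sequences with one jump (an orbit of `T` up to some time, then another one); the shifts of the
sequence `z`. It is compact, because the gaps tend to infinity. An invariant probability measure on `X'` gives the
measure zero to the sequences with one jump (the time of the jump decreases) and to the shifts of `z`. So
`M(X') = M(X)`: the same invariant-measure systems (and `X'` is uniquely ergodic if `X` is). Hence: if there are a
Möbius disjoint `(X, T)`, a continuous `f` and such `b_k`, `x_k` for which the averages of `μ(n) f(z_n)` do not tend to
zero, then Q1 of MP_cd1519_an is false (and Q1 of MP_49a1ce_an if `X` is uniquely ergodic; both pages). This step is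
elementary. (In the literature the vanishing of these averages is called the MOMO property.)

(2) NILSEQUENCES. Let `X` be the compact nilmanifold of the polynomial sequences in `G/Γ` with the shift. It is Möbius
disjoint (Green and Tao; for tori, i.e. for the phases `e(P(n))`, `P` any real polynomial of degree at most `d`, these are
Davenport's and Hua's theorems, see the library of `MP_7a8f48_an.NilpotentUnitaries`). If the averages in (1)
vanish for all these `X`, then `μ` is locally orthogonal to nilsequences: the mean over `n ≤ N` of
`sup |∑_(h < H) μ(n + h) F(g(h) Γ)| / H` tends to zero (first `N → ∞`, then `H → ∞`; for tori of dimension one this is the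
local Fourier uniformity, open). By Tao (Equivalence of the logarithmically averaged Chowla and Sarnak conjectures) the
logarithmic Chowla conjecture follows, hence the Chowla conjecture along a sequence of scales `N_i → ∞`
(Gomilko, Kwietniak, Lemańczyk).

(3) POSITIVE ENTROPY. Suppose the Chowla conjecture along a sequence of scales `N_i`. There is a Möbius disjoint subshift
`X` for which the averages in (1) do not vanish. Construction (compare Downarowicz and Serafin, Almost full entropy
subshifts uncorrelated to the Möbius function): `F_0 = {-1, 1}`; `F_(k+1)` is the set of the concatenations `w` of `m_k`
words of `F_k`, of length `p_(k+1) = m_k p_k`, such that for all `s ≤ K_k p_(k+1)` and all nonempty `A ⊆ [0, k]` the sum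
of `(f_A(T^n w) - e_(k,A)(n mod p_k)) μ(s + n)` over `n < p_(k+1)` is at most `ε_k p_(k+1)` in absolute value, where
`f_A` is the product of the coordinates in `A` and `e_(k,A)` is its mean for independent uniform words of `F_k`; `X` is the
intersection of the sets `X_k` of all limits of shifts of concatenations of words of `F_k`. Since only the finitely
many windows of `μ` which begin below `K_k p_(k+1)` are excluded, most concatenations remain, if
`m_(k+1) ≤ ε_(k+1) K_k`, `K_k = exp (p_(k+1) ^ (1/2))`, `m_k` large. A point `x` of `X` is, between the times
`p_(k+1) / ε_k` and `p_(k+2) / ε_(k+1)`, a concatenation of words of `F_(k+1)` at positions below `K_k p_(k+1)`; with the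
prime number theorem in progressions for the periodic part `e_(k,A)` it follows that `X` is Möbius disjoint.
But windows of `μ` at times near `N_i` are, by Chowla's conjecture, like independent random signs on the squarefree
numbers, and so most of them have correlation at least `δ p_k` with a word of `F_k` (take a random word which agrees with
the window on a small part of the support, and replace the few blocks of lower levels which are not allowed). The
sequence `z` which consists, between `N_(i(j))` and `N_(i(j+1))`, of such words of `F_(k(j))`, `k(j) → ∞` slowly, has all its
limit points in `X`; as in (1) add its shifts to `X`. So Q1 of MP_cd1519_an is false.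

(1), (2) and (3) together: Q1 of MP_cd1519_an is false without any hypothesis. And MP_49a1ce_an is false if the Chowla
conjecture holds along a sequence of scales (make the words of `F_k` equidistributed, so that `X` is uniquely ergodic).

(4) A WEAKER CONDITION. Instead of Chowla's conjecture (3) needs only this: for all `A`, `K` there are `p` and
infinitely many `N` such that for a positive proportion (independent of `A`, `K`) of the `c` in `[N, 2 N]` the window
`μ[c, c + p)` is not within `δ p` (`ℓ¹`-norm, `δ` fixed) of a combination `∑ a_j μ[j, j + p)`, `j ≤ K p`,
`∑ |a_j| ≤ A`, of the initial windows. (By the Hahn-Banach theorem there is then a word with values in `[-1, 1]` which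
correlates with the window and not with the initial windows.) A direct proof of this would avoid the theorem of Tao.
-/
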